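import Pool.Agent.J4H45.GT.Stm

/-! Project GT, piece BAD: few pairs are not good. -/

set_option autoImplicit false

namespace Pool.Agent.J4H4.GT

open Pool.Agent.J4H45.GT

theorem norm_one_sub {z : ℂ} (hz : ‖z‖ = 1) : ‖1 - z‖ ^ 2 ≤ 4 := by
  have h1 : ‖1 - z‖ ≤ 2 := by
    have := norm_sub_le (1 : ℂ) z
    rw [norm_one, hz] at this
    linarith
  have h0 := norm_nonneg (1 - z)
  nlinarith

theorem norm_zeta {k : ℕ} {κ : Type} [Fintype κ] {Γ : κ → Type} [∀ σ, AddCommGroup (Γ σ)]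
    [∀ σ, Fintype (Γ σ)] (C : ∀ σ, Fin k → Fin k → Γ σ) (θ : ∀ σ, AddChar (Γ σ) ℂ) (i j : Fin k) :
    ‖zeta C θ i j‖ = 1 := by
  unfold zeta
  rw [norm_prod]
  exact Finset.prod_eq_one fun σ _ => AddChar.norm_apply _ _

theorem t_BAD (hCNT : S_CNT) (hLGE : S_LGE) : S_BAD := by
  classical
  intro k κ _ Γ _ _ ℓ C F K ε B hℓ hF hK hε hε1 hB
  have hex : ∀ p : Fin k × Fin k, ∃ θ : ∀ σ, AddChar (Γ σ) ℂ, p ∈ B →
      massC (fun i j => ‖1 - zeta C θ i j‖ ^ 2) p.2 < K ∧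
      massR (fun i j => ‖1 - zeta C θ i j‖ ^ 2) p.1 < K ∧ ε < ‖1 - zeta C θ p.1 p.2‖ := by
    intro p
    by_cases hp : p ∈ B
    · have h := hB p hp
      unfold Good at h
      push Not at h
      obtain ⟨θ, h1, h2, h3⟩ := h
      exact ⟨θ, fun _ => ⟨h1, h2, h3⟩⟩
    · exact ⟨fun _ => 1, fun h => absurd h hp⟩
  choose θ hθ using hex
  have hz : ∀ (θ' : ∀ σ, AddChar (Γ σ) ℂ) (i j : Fin k),
      ∏ σ : F, θ' σ (C σ i j) = zeta C θ' i j := by
    intro θ' i j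
    unfold zeta
    rw [Finset.prod_coe_sort F (fun σ => θ' σ (C σ i j))]
    apply Finset.prod_subset (Finset.subset_univ F)
    intro σ _ hσ
    rw [hF σ hσ, AddChar.map_zero_eq_one]
  have hc := hCNT (∀ σ : F, AddChar (Γ σ) ℂ) (Fin k × Fin k)
    (fun p θ' => ∏ σ : F, θ' σ (C σ p.1 p.2)) B (fun p σ => θ p σ) ε (6 * (K + 1) ^ 2)
    (fun p x => by
      rw [norm_prod]
      exact Finset.prod_eq_one fun σ _ => AddChar.norm_apply _ _)
    (fun p x y => by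
      rw [← Finset.prod_mul_distrib]
      rfl)
    hε hε1 (by nlinarith)
    (fun p hp => by
      show ε < ‖1 - ∏ σ : F, θ p σ (C σ p.1 p.2)‖
      rw [hz (θ p)]
      exact (hθ p hp).2.2)
    (fun p hp => by
      obtain ⟨h1, h2, _⟩ := hθ p hp
      have h3 := hLGE k p.1 p.2 (fun i j => ‖1 - zeta C (θ p) i j‖ ^ 2) K
        (fun i j => ⟨sq_nonneg _, norm_one_sub (norm_zeta C (θ p) i j)⟩) hK h1.le h2.le
      refine le_trans ?_ h3
      calc ∑ p' ∈ B.erase p, ‖1 - ∏ σ : F, θ p σ (C σ p'.1 p'.2)‖ ^ 2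
          = ∑ p' ∈ B.erase p, ‖1 - zeta C (θ p) p'.1 p'.2‖ ^ 2 :=
            Finset.sum_congr rfl fun p' _ => by rw [hz (θ p)]
        _ ≤ ∑ p' ∈ Finset.univ.erase (p.1, p.2), ‖1 - zeta C (θ p) p'.1 p'.2‖ ^ 2 := by
            apply Finset.sum_le_sum_of_subset_of_nonneg
            · exact Finset.erase_subset_erase _ (Finset.subset_univ _)
            · intro p' _ _
              exact sq_nonneg _)
  refine hc.trans ?_
  have hcard : Real.log (Fintype.card (∀ σ : F, AddChar (Γ σ) ℂ)) ≤ ((∑ σ ∈ F, ℓ σ : ℕ) : ℝ) := by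
    rw [Fintype.card_pi, Nat.cast_prod, Real.log_prod (fun σ _ => by
      rw [AddChar.card_eq]
      exact_mod_cast Fintype.card_ne_zero)]
    rw [Nat.cast_sum, ← Finset.sum_coe_sort F (fun σ => (ℓ σ : ℝ))]
    refine Finset.sum_le_sum fun σ _ => ?_
    rw [AddChar.card_eq]
    have h1 : ((Fintype.card (Γ σ) : ℕ) : ℝ) ≤ 2 ^ ℓ σ := by exact_mod_cast hℓ σ
    have h0 : (0 : ℝ) < (Fintype.card (Γ σ) : ℕ) := by exact_mod_cast Fintype.card_pos
    calc Real.log (Fintype.card (Γ σ)) ≤ Real.log (2 ^ ℓ (σ : κ)) := Real.log_le_log h0 h1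
      _ = ℓ (σ : κ) * Real.log 2 := Real.log_pow _ _
      _ ≤ ℓ (σ : κ) * 1 := by
          have : Real.log 2 ≤ 1 := by
            have := Real.log_le_sub_one_of_pos (show (0 : ℝ) < 2 by norm_num)
            linarith
          gcongr
      _ = ℓ (σ : κ) := mul_one _
  have h2 : 64 * (6 * (K + 1) ^ 2) * Real.log (Fintype.card (∀ σ : F, AddChar (Γ σ) ℂ)) / ε ^ 2 ≤
      384 * (K + 1) ^ 2 * ((∑ σ ∈ F, ℓ σ : ℕ) : ℝ) / ε ^ 2 := by
    rw [show 64 * (6 * (K + 1) ^ 2) = 384 * (K + 1) ^ 2 by ring]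
    gcongr
  linarith

end Pool.Agent.J4H4.GT
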