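import Pool.Agent.J4H45.GT.Stm

/-! Project GT, piece HV2: independence of the positions. -/

set_option autoImplicit false

namespace Pool.Agent.J4H4.GT

open Pool.Agent.J4H45.GT

theorem exp_neg_le {x : ℝ} (hx : 0 ≤ x) : Real.exp (-x) ≤ 1 - x + x ^ 2 / 2 := by
  have h1 := Real.quadratic_le_exp_of_nonneg hx
  have h2 : 0 < 1 + x + x ^ 2 / 2 := by positivity
  have h3 : Real.exp (-x) ≤ (1 + x + x ^ 2 / 2)⁻¹ := by
    rw [Real.exp_neg]
    exact inv_anti₀ h2 h1
  refine h3.trans ?_
  rw [inv_le_iff_one_le_mul₀ h2]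
  nlinarith [sq_nonneg (x ^ 2)]

/-- the sum of the squares of a sum -/
theorem sq_sum_le {P ι : Type} [Fintype P] (J : Finset ι) (V : ι → P → ℝ) (m : ι → ℝ) (c : ℝ)
    (hc : 0 ≤ c) (hm : ∀ j, 0 ≤ m j) (h : ∀ j, ∑ p, (V j p) ^ 2 ≤ (m j) ^ 2 * c) :
    ∑ p, (∑ j ∈ J, V j p) ^ 2 ≤ (∑ j ∈ J, m j) ^ 2 * c := by
  have h1 : ∀ i j, ∑ p, V i p * V j p ≤ m i * m j * c := by
    intro i j
    have h2 := Finset.sum_mul_sq_le_sq_mul_sq Finset.univ (V i) (V j)
    have h3 : (∑ p, V i p * V j p) ^ 2 ≤ (m i * m j * c) ^ 2 := by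
      refine h2.trans ?_
      calc (∑ p, V i p ^ 2) * (∑ p, V j p ^ 2) ≤ ((m i) ^ 2 * c) * ((m j) ^ 2 * c) := by
            apply mul_le_mul (h i) (h j) (Finset.sum_nonneg fun p _ => sq_nonneg _)
            positivity
        _ = (m i * m j * c) ^ 2 := by ring
    exact le_of_sq_le_sq h3 (mul_nonneg (mul_nonneg (hm i) (hm j)) hc)
  calc ∑ p, (∑ j ∈ J, V j p) ^ 2 = ∑ p, ∑ i ∈ J, ∑ j ∈ J, V i p * V j p := by
        refine Finset.sum_congr rfl fun p _ => ?_
        rw [sq, Finset.sum_mul_sum]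
    _ = ∑ i ∈ J, ∑ j ∈ J, ∑ p, V i p * V j p := by
        rw [Finset.sum_comm]
        refine Finset.sum_congr rfl fun i _ => ?_
        rw [Finset.sum_comm]
    _ ≤ ∑ i ∈ J, ∑ j ∈ J, m i * m j * c :=
        Finset.sum_le_sum fun i _ => Finset.sum_le_sum fun j _ => h1 i j
    _ = (∑ j ∈ J, m j) ^ 2 * c := by
        rw [sq, Finset.sum_mul_sum, Finset.sum_mul]
        refine Finset.sum_congr rfl fun i _ => ?_
        rw [Finset.sum_mul]

/-- independence of the positions -/
theorem indep {k q : ℕ} (g : (Fin k → Bool) → (Fin k → Bool) → ℝ) :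
    ∑ x : Fin k → Option (Fin q) → Bool, ∑ x' : Fin k → Option (Fin q) → Bool,
      ∏ β : Fin q, g (fun i => x i (some β)) (fun i => x' i (some β)) =
    (2 ^ k * 2 ^ k) * (∑ y : Fin k → Bool, ∑ y' : Fin k → Bool, g y y') ^ q := by
  classical
  have e1 : ∑ x : Fin k → Option (Fin q) → Bool, ∑ x' : Fin k → Option (Fin q) → Bool,
      ∏ β : Fin q, g (fun i => x i (some β)) (fun i => x' i (some β)) =
      ∑ z : Option (Fin q) → (Fin k → Bool) × (Fin k → Bool),
        ∏ β : Fin q, g (z (some β)).1 (z (some β)).2 := by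
    rw [← Fintype.sum_prod_type']
    refine Fintype.sum_equiv
      { toFun := fun p o => ((fun i => p.1 i o), (fun i => p.2 i o))
        invFun := fun z => ((fun i o => (z o).1 i), (fun i o => (z o).2 i))
        left_inv := fun p => rfl
        right_inv := fun z => rfl } _ _ fun p => rfl
  rw [e1]
  have e2 : ∀ z : Option (Fin q) → (Fin k → Bool) × (Fin k → Bool),
      ∏ β : Fin q, g (z (some β)).1 (z (some β)).2 =
      ∏ o : Option (Fin q), (fun (o : Option (Fin q)) (p : (Fin k → Bool) × (Fin k → Bool)) =>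
        if o = none then (1 : ℝ) else g p.1 p.2) o (z o) := by
    intro z
    rw [Fintype.prod_option]
    simp
  simp only [e2]
  have e3 := Finset.prod_univ_sum (fun _ : Option (Fin q) =>
    (Finset.univ : Finset ((Fin k → Bool) × (Fin k → Bool))))
    (fun (o : Option (Fin q)) (p : (Fin k → Bool) × (Fin k → Bool)) =>
        if o = none then (1 : ℝ) else g p.1 p.2)
  rw [Fintype.piFinset_univ] at e3
  rw [← e3, Fintype.prod_option]
  simp only [if_true, Option.some_ne_none, if_false, Finset.sum_const, Finset.card_univ,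
    Finset.prod_const, Fintype.card_fin, Fintype.card_prod, Fintype.card_fun, Fintype.card_bool,
    nsmul_eq_mul, mul_one, Nat.cast_mul, Nat.cast_pow, Nat.cast_ofNat]
  rw [Fintype.sum_prod_type]

theorem t_HV2 (hCOL : S_COL) : S_HV2 := by
  classical
  intro k q ζ o J hq hζ hM
  obtain ⟨m, hm⟩ : ∃ m : Fin k → ℝ, m = fun j => min 1 (∑ i, ‖1 - ζ i j‖ ^ 2) := ⟨_, rfl⟩
  have hmj : ∀ j, min 1 (∑ i, ‖1 - ζ i j‖ ^ 2) = m j := fun j => by rw [hm]
  simp only [hmj] at hM ⊢
  have hm0 : ∀ j, 0 ≤ m j := by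
    intro j
    rw [hm]
    exact le_min zero_le_one (Finset.sum_nonneg fun i _ => sq_nonneg _)
  obtain ⟨M, hMd⟩ : ∃ M : ℝ, M = ∑ j ∈ J, m j := ⟨_, rfl⟩
  rw [← hMd] at hM ⊢
  have hM0 : 0 ≤ M := by
    rw [hMd]
    exact Finset.sum_nonneg fun j _ => hm0 j
  have hq0 : (0 : ℝ) < q := by exact_mod_cast hq
  obtain ⟨c, hc⟩ : ∃ c : ℝ, c = 2 ^ k * 2 ^ k := ⟨_, rfl⟩
  have hc0 : 0 < c := by rw [hc]; positivity
  obtain ⟨V, hV⟩ : ∃ V : Fin k → (Fin k → Bool) × (Fin k → Bool) → ℝ,
      V = fun j p => 1 - YY (fun i => ζ i j) o p.1 p.2 := ⟨_, rfl⟩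
  have hcol := fun j => hCOL k (Option (Fin q)) (fun i => ζ i j) o (fun i => hζ i j)
  have hV0 : ∀ j p, 0 ≤ V j p := by
    intro j p
    rw [hV]
    have := ((hcol j).1 p.1 p.2).2
    simp only []
    linarith
  have hV1 : ∀ j, m j / 32 * c ≤ ∑ p, V j p := by
    intro j
    have := (hcol j).2.1
    rw [hmj, ← hc] at this
    rw [hV, Fintype.sum_prod_type]
    exact this
  have hV2 : ∀ j, ∑ p, (V j p) ^ 2 ≤ (m j) ^ 2 * c := by
    intro j
    have := (hcol j).2.2
    rw [hmj, ← hc] at this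
    rw [hV, Fintype.sum_prod_type]
    exact this
  obtain ⟨W, hW⟩ : ∃ W : (Fin k → Bool) × (Fin k → Bool) → ℝ, W = fun p => ∑ j ∈ J, V j p := ⟨_, rfl⟩
  have hW0 : ∀ p, 0 ≤ W p := by
    intro p
    rw [hW]
    exact Finset.sum_nonneg fun j _ => hV0 j p
  have hW1 : M / 32 * c ≤ ∑ p, W p := by
    rw [hW, Finset.sum_comm, hMd, Finset.sum_div, Finset.sum_mul]
    exact Finset.sum_le_sum fun j _ => hV1 j
  have hW2 : ∑ p, (W p) ^ 2 ≤ M ^ 2 * c := by
    rw [hW, hMd]
    exact sq_sum_le J V m c hc0.le hm0 hV2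
  have hcard : ∑ _p : (Fin k → Bool) × (Fin k → Bool), (1 : ℝ) = c := by
    rw [hc]
    simp
  have hE : ∑ p, Real.exp (-(W p / q)) ≤ c * Real.exp (-(M / (64 * q))) := by
    calc ∑ p, Real.exp (-(W p / q)) ≤ ∑ p, (1 - W p / q + (W p / q) ^ 2 / 2) :=
          Finset.sum_le_sum fun p _ => exp_neg_le (div_nonneg (hW0 p) hq0.le)
      _ = c - (∑ p, W p) / q + (∑ p, (W p) ^ 2) / (2 * q ^ 2) := by
          rw [Finset.sum_add_distrib, Finset.sum_sub_distrib, hcard, Finset.sum_div, Finset.sum_div]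
          congr 1
          refine Finset.sum_congr rfl fun p _ => ?_
          field_simp
      _ ≤ c - (M / 32 * c) / q + (M ^ 2 * c) / (2 * q ^ 2) := by
          gcongr
      _ ≤ c * (1 - M / (64 * q)) := by
          have h1 : M / q ≤ 1 / 32 := by
            rw [div_le_div_iff₀ hq0 (by norm_num)]
            linarith
          have h2 : (M ^ 2 * c) / (2 * q ^ 2) = (M / q) * (M / q) * c / 2 := by
            field_simp
          have h3 : (M / 32 * c) / q = (M / q) * c / 32 := by
            field_simp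
          have h4 : M / (64 * q) = (M / q) / 64 := by
            field_simp
          rw [h2, h3, h4]
          have h5 : 0 ≤ M / q := by positivity
          have h6 : (M / q) * (M / q) ≤ (M / q) * (1 / 32) := mul_le_mul_of_nonneg_left h1 h5
          nlinarith [mul_le_mul_of_nonneg_right h6 hc0.le]
      _ ≤ c * Real.exp (-(M / (64 * q))) := by
          apply mul_le_mul_of_nonneg_left _ hc0.le
          have := Real.add_one_le_exp (-(M / (64 * q)))
          linarith
  -- the pointwise bound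
  have hpt : ∀ x x' : Fin k → Option (Fin q) → Bool,
      ∏ j ∈ J, ((1 / (q : ℝ)) * ∑ β : Fin q,
        YY (fun i => ζ i j) o (fun i => x i (some β)) (fun i => x' i (some β))) ≤
      ∏ β : Fin q, Real.exp (-(W ((fun i => x i (some β)), (fun i => x' i (some β))) / q)) := by
    intro x x'
    have h1 : ∀ j, (1 / (q : ℝ)) * ∑ β : Fin q,
        YY (fun i => ζ i j) o (fun i => x i (some β)) (fun i => x' i (some β)) =
        1 - ∑ β : Fin q, V j ((fun i => x i (some β)), (fun i => x' i (some β))) / q := by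
      intro j
      rw [hV]
      simp only []
      rw [← Finset.sum_div, Finset.sum_sub_distrib]
      simp only [Finset.sum_const, Finset.card_univ, Fintype.card_fin, nsmul_eq_mul, mul_one]
      field_simp
      ring
    calc ∏ j ∈ J, ((1 / (q : ℝ)) * ∑ β : Fin q,
        YY (fun i => ζ i j) o (fun i => x i (some β)) (fun i => x' i (some β)))
        ≤ ∏ j ∈ J, Real.exp (-(∑ β : Fin q,
          V j ((fun i => x i (some β)), (fun i => x' i (some β))) / q)) := by
          refine Finset.prod_le_prod ?_ ?_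
          · intro j _
            exact mul_nonneg (by positivity) (Finset.sum_nonneg fun β _ => ((hcol j).1 _ _).1)
          · intro j _
            rw [h1]
            have := Real.add_one_le_exp (-(∑ β : Fin q,
              V j ((fun i => x i (some β)), (fun i => x' i (some β))) / q))
            linarith
      _ = ∏ β : Fin q, Real.exp (-(W ((fun i => x i (some β)), (fun i => x' i (some β))) / q)) := by
          rw [← Real.exp_sum, ← Real.exp_sum]
          congr 1
          rw [Finset.sum_neg_distrib, Finset.sum_neg_distrib, Finset.sum_comm]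
          congr 1
          refine Finset.sum_congr rfl fun β _ => ?_
          rw [hW]
          simp only []
          rw [Finset.sum_div]
  calc ∑ x : Fin k → Option (Fin q) → Bool, ∑ x' : Fin k → Option (Fin q) → Bool,
        ∏ j ∈ J, ((1 / (q : ℝ)) * ∑ β : Fin q,
          YY (fun i => ζ i j) o (fun i => x i (some β)) (fun i => x' i (some β)))
      ≤ ∑ x : Fin k → Option (Fin q) → Bool, ∑ x' : Fin k → Option (Fin q) → Bool,
        ∏ β : Fin q, Real.exp (-(W ((fun i => x i (some β)), (fun i => x' i (some β))) / q)) :=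
        Finset.sum_le_sum fun x _ => Finset.sum_le_sum fun x' _ => hpt x x'
    _ = (2 ^ k * 2 ^ k) * (∑ y : Fin k → Bool, ∑ y' : Fin k → Bool,
          Real.exp (-(W (y, y') / q))) ^ q :=
        indep (fun y y' => Real.exp (-(W (y, y') / q)))
    _ = c * (∑ p, Real.exp (-(W p / q))) ^ q := by
        rw [Fintype.sum_prod_type, hc]
    _ ≤ c * (c * Real.exp (-(M / (64 * q)))) ^ q := by
        have : 0 ≤ ∑ p, Real.exp (-(W p / q)) := Finset.sum_nonneg fun p _ => (Real.exp_pos _).le
        exact mul_le_mul_of_nonneg_left (pow_le_pow_left₀ this hE q) hc0.le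
    _ = Real.exp (-(M / 64)) * c ^ (q + 1) := by
        rw [mul_pow, ← Real.exp_nat_mul]
        have : (q : ℝ) * (-(M / (64 * q))) = -(M / 64) := by
          field_simp
        rw [this, pow_succ]
        ring
    _ = Real.exp (-(M / 64)) * (Fintype.card (Fin k → Option (Fin q) → Bool) : ℝ) ^ 2 := by
        congr 1
        have e : Fintype.card (Fin k → Option (Fin q) → Bool) = (2 ^ (q + 1)) ^ k := by
          rw [Fintype.card_fun, Fintype.card_fun, Fintype.card_option, Fintype.card_fin,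
            Fintype.card_fin, Fintype.card_bool]
        rw [hc, e, Nat.cast_pow, Nat.cast_pow, Nat.cast_ofNat, ← pow_add, ← pow_mul, ← pow_mul,
          ← pow_mul]
        congr 1
        ring

end Pool.Agent.J4H4.GT
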