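import Pool.Agent.J4H45.GT.Stm
import Pool.Agent.N631.SX.Sim

/-! Project GT, piece SIM: cells made from a group element and from a protocol. -/

set_option autoImplicit false

namespace Pool.Agent.J4H4.GT

open Pool.Agent.J4H45.GT Pool.Agent.N631.SX

variable {c d : ℕ} {Γ : Fin c → Type} {Δ : Type}

/-- the cells of the simulation -/
abbrev KK (c d : ℕ) := Fin c ⊕ (Fin c × Nd d)

/-- the groups of the simulation -/
def GG (d : ℕ) (Γ : Fin c → Type) : KK c d → Type
  | Sum.inl σ => Γ σ
  | Sum.inr _ => ZMod 2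

instance gAdd [i : ∀ σ, AddCommGroup (Γ σ)] : ∀ τ, AddCommGroup (GG d Γ τ)
  | Sum.inl σ => i σ
  | Sum.inr _ => (inferInstance : AddCommGroup (ZMod 2))

instance gFin [i : ∀ σ, Fintype (Γ σ)] : ∀ τ, Fintype (GG d Γ τ)
  | Sum.inl σ => i σ
  | Sum.inr _ => (inferInstance : Fintype (ZMod 2))

/-- the sizes of the cells -/
def ll (c d r : ℕ) : KK c d → ℕ
  | Sum.inl _ => r
  | Sum.inr _ => 1

/-- the bit of an element -/
def vb (v : ZMod 2) : Bool := decide (v = 1)

/-- the element of a bit -/
def bv (b : Bool) : ZMod 2 := if b = true then 1 else 0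

theorem vb_bv (b : Bool) : vb (bv b) = b := by
  cases b <;> simp [vb, bv]

/-- running a protocol -/
noncomputable def rd (σ : Fin c) : ℕ → List Bool → (List Bool → GTree (GG d Γ)) → GTree (GG d Γ)
  | 0, h, k => k h
  | m + 1, h, k => if hh : h.length < d then
      GTree.probe (Sum.inr (σ, ⟨h, hh⟩)) (fun v : ZMod 2 => rd σ m (vb v :: h) k) else k h

theorem rd_out {X Y : Type} (T : Talk X Y) (x : X) (y : Y) (b : ∀ τ, GG d Γ τ) (σ : Fin c)
    (hb : ∀ h : Nd d, vb (b (Sum.inr (σ, h))) = T.next x y h.1)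
    (k : List Bool → GTree (GG d Γ)) : ∀ (m j : ℕ), j + m = d →
      (rd σ m (T.run x y j) k).out b = (k (T.run x y d)).out b := by
  intro m
  induction m with
  | zero =>
    intro j hj
    rw [add_zero] at hj
    rw [hj]
    rfl
  | succ m ih =>
    intro j hj
    have hl : (T.run x y j).length < d := by rw [run_length]; omega
    simp only [rd]
    rw [dif_pos hl]
    simp only [GTree.out]
    rw [hb]
    exact ih (j + 1) (by omega)

theorem rd_cost {X Y : Type} (T : Talk X Y) (x : X) (y : Y) (b : ∀ τ, GG d Γ τ) (σ : Fin c)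
    (r : ℕ) (hb : ∀ h : Nd d, vb (b (Sum.inr (σ, h))) = T.next x y h.1)
    (k : List Bool → GTree (GG d Γ)) : ∀ (m j : ℕ), j + m = d →
      (rd σ m (T.run x y j) k).cost (ll c d r) b = m + (k (T.run x y d)).cost (ll c d r) b := by
  intro m
  induction m with
  | zero =>
    intro j hj
    rw [add_zero] at hj
    rw [hj, zero_add]
    rfl
  | succ m ih =>
    intro j hj
    have hl : (T.run x y j).length < d := by rw [run_length]; omega
    simp only [rd]
    rw [dif_pos hl]
    simp only [GTree.cost]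
    rw [hb]
    have := ih (j + 1) (by omega)
    simp only [Talk.run] at this
    rw [this]
    show m + _ + 1 = _
    omega

/-- the simulation of a query algorithm -/
noncomputable def sim (make : ∀ σ, Γ σ → List Bool → Δ) : CTree c Δ → GTree (GG d Γ)
  | CTree.answer o => GTree.answer o
  | CTree.probe σ nx => GTree.probe (Sum.inl σ) (fun v : Γ σ =>
      rd σ d [] fun h => sim make (nx (make σ v h)))

theorem sim_out {X Y : Type} (T : Fin c → Talk X Y) (x : X) (y : Y) (b : ∀ τ, GG d Γ τ)
    (make : ∀ σ, Γ σ → List Bool → Δ) (fm : ∀ σ, Γ σ)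
    (h1 : ∀ σ, b (Sum.inl σ) = fm σ) (h2 : ∀ σ h, vb (b (Sum.inr (σ, h))) = (T σ).next x y h.1)
    (q : CTree c Δ) : (sim make q).out b =
      q.out (fun σ => make σ (fm σ) ((T σ).run x y d)) := by
  induction q with
  | answer o => rfl
  | probe σ nx ih =>
    simp only [sim, CTree.out, GTree.out]
    rw [h1]
    have h4 := rd_out (T σ) x y b σ (h2 σ) (fun h => sim make (nx (make σ (fm σ) h))) d 0 (by omega)
    simp only [Talk.run] at h4
    rw [h4]
    exact ih _

theorem sim_cost {X Y : Type} (T : Fin c → Talk X Y) (x : X) (y : Y) (b : ∀ τ, GG d Γ τ)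
    (make : ∀ σ, Γ σ → List Bool → Δ) (fm : ∀ σ, Γ σ) (r : ℕ)
    (h1 : ∀ σ, b (Sum.inl σ) = fm σ) (h2 : ∀ σ h, vb (b (Sum.inr (σ, h))) = (T σ).next x y h.1)
    (q : CTree c Δ) : (sim make q).cost (ll c d r) b =
      (r + d) * q.probes (fun σ => make σ (fm σ) ((T σ).run x y d)) := by
  induction q with
  | answer o => rfl
  | probe σ nx ih =>
    simp only [sim, CTree.probes, GTree.cost]
    rw [h1]
    have h4 := rd_cost (T σ) x y b σ r (h2 σ) (fun h => sim make (nx (make σ (fm σ) h))) d 0
      (by omega)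
    simp only [Talk.run] at h4
    rw [h4, ih]
    show d + _ + r = _
    ring

variable {n : ℕ}

/-- the structure of the simulation -/
noncomputable def simDS [∀ σ, AddCommGroup (Γ σ)] (D : SketchDS n c d Γ Δ) :
    GroupDS n (GG d Γ) where
  Q := fun
    | Sum.inl σ => D.Q σ
    | Sum.inr _ => ∅
  a := fun
    | Sum.inl σ => D.a σ
    | Sum.inr _ => fun _ => (0 : ZMod 2)
  f := fun
    | Sum.inl σ => D.f σ
    | Sum.inr p => fun A => bv ((D.talk p.1).turn p.2.1 && (D.talk p.1).fst p.2.1 A)
  g := fun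
    | Sum.inl σ => D.g σ
    | Sum.inr p => fun B => bv (!(D.talk p.1).turn p.2.1 && (D.talk p.1).snd p.2.1 B)
  query := fun z => sim D.make (D.query z)

open Classical in
theorem cell_inl [∀ σ, AddCommGroup (Γ σ)] (D : SketchDS n c d Γ Δ) (A B : Fin n → ℕ) (σ : Fin c) :
    (simDS D).cell A B (Sum.inl σ) =
      (∑ z ∈ D.Q σ with ∃ i j, A i + B j = z, D.a σ z) + D.f σ A + D.g σ B := rfl

theorem cell_inr [∀ σ, AddCommGroup (Γ σ)] (D : SketchDS n c d Γ Δ) (A B : Fin n → ℕ) (σ : Fin c)
    (h : Nd d) : vb ((simDS D).cell A B (Sum.inr (σ, h))) = (D.talk σ).next A B h.1 := by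
  classical
  have e : (simDS D).cell A B (Sum.inr (σ, h)) =
      (∑ z ∈ (∅ : Finset ℕ) with ∃ i j, A i + B j = z, (0 : ZMod 2)) +
        bv ((D.talk σ).turn h.1 && (D.talk σ).fst h.1 A) +
        bv (!(D.talk σ).turn h.1 && (D.talk σ).snd h.1 B) := rfl
  rw [e]
  unfold Talk.next
  simp only [Finset.filter_empty, Finset.sum_empty, zero_add]
  cases (D.talk σ).turn h.1 <;> cases (D.talk σ).fst h.1 A <;> cases (D.talk σ).snd h.1 B <;>
    simp [vb, bv]

theorem t_SIM : S_SIM := by
  classical
  intro hM N t c s r d Γ _ _ Δ δ Ω _ p D ht hr hδ hδ2 hc hs hD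
  obtain ⟨hp, hp1, hcor⟩ := hD
  have h := hM N ((r + d) * t) (r * s) (KK c d) (GG d Γ) (ll c d r) Ω p (fun ω => simDS (D ω)) δ
    (Nat.one_le_iff_ne_zero.2 (by positivity)) hδ hδ2
    (by
      intro τ
      cases τ with
      | inl σ => exact hc σ
      | inr _ =>
        show Fintype.card (ZMod 2) ≤ 2 ^ 1
        rw [ZMod.card]
        norm_num)
    (by
      intro ω
      refine le_trans ?_ (Nat.mul_le_mul_left r (hs ω))
      unfold GroupDS.space SketchDS.space
      have h1 : (Finset.univ.filter fun τ : KK c d => ((simDS (D ω)).Q τ).Nonempty) ⊆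
          (Finset.univ.filter fun σ : Fin c => ((D ω).Q σ).Nonempty).image Sum.inl := by
        intro τ hτ
        rw [Finset.mem_filter] at hτ
        cases τ with
        | inl σ => exact Finset.mem_image.2 ⟨σ, Finset.mem_filter.2 ⟨Finset.mem_univ _, hτ.2⟩, rfl⟩
        | inr p =>
          exfalso
          have : (∅ : Finset ℕ).Nonempty := hτ.2
          simp at this
      refine (Finset.sum_le_sum_of_subset h1).trans ?_
      rw [Finset.sum_image (fun a _ b _ hab => Sum.inl_injective hab)]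
      show ∑ σ ∈ (Finset.univ.filter fun σ : Fin c => ((D ω).Q σ).Nonempty), r ≤ _
      rw [Finset.sum_const, smul_eq_mul, mul_comm])
    ⟨hp, hp1, by
      intro A B hA hB z
      refine (hcor A B hA hB z).trans ?_
      refine Finset.sum_le_sum_of_subset_of_nonneg ?_ fun ω _ _ => hp ω
      intro ω hω
      rw [Finset.mem_filter] at hω ⊢
      have e1 := sim_out (D ω).talk A B ((simDS (D ω)).cell A B) (D ω).make
        (fun σ => (∑ z ∈ (D ω).Q σ with ∃ i j, A i + B j = z, (D ω).a σ z) + (D ω).f σ A +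
          (D ω).g σ B) (fun σ => cell_inl (D ω) A B σ) (fun σ h => cell_inr (D ω) A B σ h)
        ((D ω).query z)
      have e2 := sim_cost (D ω).talk A B ((simDS (D ω)).cell A B) (D ω).make
        (fun σ => (∑ z ∈ (D ω).Q σ with ∃ i j, A i + B j = z, (D ω).a σ z) + (D ω).f σ A +
          (D ω).g σ B) r (fun σ => cell_inl (D ω) A B σ) (fun σ h => cell_inr (D ω) A B σ h)
        ((D ω).query z)
      refine ⟨Finset.mem_univ _, ?_, ?_⟩
      · show (sim (D ω).make ((D ω).query z)).out ((simDS (D ω)).cell A B) = true ↔ _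
        rw [e1]
        exact hω.2.1
      · show (sim (D ω).make ((D ω).query z)).cost (ll c d r) ((simDS (D ω)).cell A B) ≤ _
        rw [e2]
        exact Nat.mul_le_mul_left _ hω.2.2⟩
  push_cast at h
  exact h

end Pool.Agent.J4H4.GT
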